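import Pool.Agent.H53.NR.Targets

/-!
# Board nrt_modules, row FB3: the coloured order of a structure with free amalgamation
-/

set_option autoImplicit false

namespace Pool.Agent.H49.NR

open Pool.Agent.H68.BP Pool.Agent.H58.SF Pool.Agent.H53.GC Pool.Agent.H53.NR

variable {τ : Sig} {B : Type} {𝔹 : Str τ B}

theorem ptype_self (x : B) (l : Fin τ.m) (f : Fin (τ.ar l) → Bool) :
    ptype 𝔹 x x l f ↔ (∀ i j, f i = f j) ∧ 𝔹 l (fun _ => x) := by
  unfold ptype
  simp

theorem ptype_false (x y : B) (l : Fin τ.m) :
    ptype 𝔹 x y l (fun _ => false) ↔ 𝔹 l (fun _ => x) := by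
  unfold ptype
  simp

theorem ptype_true (x y : B) (l : Fin τ.m) :
    ptype 𝔹 x y l (fun _ => true) ↔ 𝔹 l (fun _ => y) := by
  unfold ptype
  simp

theorem ptype_ne {x y : B} (h : x ≠ y) (l : Fin τ.m) (f : Fin (τ.ar l) → Bool) :
    ptype 𝔹 x y l f ↔ 𝔹 l (fun i => if f i then y else x) := by
  unfold ptype
  simp [h]

/-- the type of the first element -/
def Lf (𝔹 : Str τ B) (t : PT 𝔹) : PT 𝔹 :=
  ⟨fun l f => (∀ i j, f i = f j) ∧ t.1 l (fun _ => false), by
    obtain ⟨x, y, h⟩ := t.2
    refine ⟨x, x, ?_⟩
    funext l f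
    rw [← h]
    exact propext ((ptype_self x l f).trans (and_congr_right fun _ => (ptype_false x y l).symm))⟩

/-- the type of the second element -/
def Rf (𝔹 : Str τ B) (t : PT 𝔹) : PT 𝔹 :=
  ⟨fun l f => (∀ i j, f i = f j) ∧ t.1 l (fun _ => true), by
    obtain ⟨x, y, h⟩ := t.2
    refine ⟨y, y, ?_⟩
    funext l f
    rw [← h]
    exact propext ((ptype_self y l f).trans (and_congr_right fun _ => (ptype_true x y l).symm))⟩

/-- the free type -/
def Ff (s t : (l : Fin τ.m) → (Fin (τ.ar l) → Bool) → Prop) :
    (l : Fin τ.m) → (Fin (τ.ar l) → Bool) → Prop :=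
  fun l f => (f = (fun _ => false) ∧ s l f) ∨ (f = (fun _ => true) ∧ t l f)

open Classical in
/-- the free colour -/
noncomputable def fro (𝔹 : Str τ B) (s t : PT 𝔹) : PT 𝔹 :=
  if h : ∃ x y, ptype 𝔹 x y = Ff s.1 t.1 then ⟨Ff s.1 t.1, h⟩ else s

/-- the tuple has both kinds of places -/
def NC {k : ℕ} (f : Fin k → Bool) : Prop := (∃ p, f p = true) ∧ ∃ p, f p = false

theorem NC.ne_false {k : ℕ} {f : Fin k → Bool} (h : NC f) : f ≠ fun _ => false := by
  intro h'
  obtain ⟨⟨p, hp⟩, _⟩ := h
  rw [h'] at hp
  exact Bool.noConfusion hp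

theorem NC.ne_true {k : ℕ} {f : Fin k → Bool} (h : NC f) : f ≠ fun _ => true := by
  intro h'
  obtain ⟨_, ⟨p, hp⟩⟩ := h
  rw [h'] at hp
  exact Bool.noConfusion hp

theorem NC.not_const {k : ℕ} {f : Fin k → Bool} (h : NC f) : ¬ ∀ i j, f i = f j := by
  intro h'
  obtain ⟨⟨p, hp⟩, ⟨q, hq⟩⟩ := h
  have := h' p q
  rw [hp, hq] at this
  exact Bool.noConfusion this

theorem nc_or {k : ℕ} (f : Fin k → Bool) : f = (fun _ => false) ∨ f = (fun _ => true) ∨ NC f := by
  by_cases h1 : ∃ p, f p = true
  · by_cases h2 : ∃ p, f p = false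
    · exact Or.inr (Or.inr ⟨h1, h2⟩)
    · refine Or.inr (Or.inl (funext fun p => ?_))
      cases hp : f p with
      | true => rfl
      | false => exact absurd ⟨p, hp⟩ h2
  · refine Or.inl (funext fun p => ?_)
    cases hp : f p with
    | true => exact absurd ⟨p, hp⟩ h1
    | false => rfl

theorem Ff_nc (s t : (l : Fin τ.m) → (Fin (τ.ar l) → Bool) → Prop) {l : Fin τ.m}
    {f : Fin (τ.ar l) → Bool} (h : NC f) : ¬ Ff s t l f := by
  rintro (h1 | h1)
  · exact h.ne_false h1.1
  · exact h.ne_true h1.1

theorem fro_nc {s t : PT 𝔹} {v : B} (hs : pt 𝔹 v v = s) {l : Fin τ.m}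
    {f : Fin (τ.ar l) → Bool} (h : NC f) : ¬ (fro 𝔹 s t).1 l f := by
  unfold fro
  split_ifs with h1
  · exact Ff_nc _ _ h
  · rw [← hs]
    intro h2
    exact h.not_const ((ptype_self v l f).1 h2).1

/-- tuples of length at most two -/
theorem two_cases {W : Type} {k : ℕ} (hk : 1 ≤ k ∧ k ≤ 2) (z : Fin k → W) :
    (∃ a, z = fun _ => a) ∨ ∃ (a b : W) (f : Fin k → Bool), a ≠ b ∧ NC f ∧
      z = fun p => if f p then b else a := by
  by_cases h : ∀ p q, z p = z q
  · exact Or.inl ⟨z ⟨0, by omega⟩, funext fun p => h _ _⟩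
  · push Not at h
    obtain ⟨p, q, hpq⟩ := h
    have hne : p ≠ q := fun h' => hpq (by rw [h'])
    have hall : ∀ r : Fin k, r = p ∨ r = q := by
      intro r
      have h1 := p.2
      have h2 := q.2
      have h3 := r.2
      have h4 : p.1 ≠ q.1 := fun h' => hne (Fin.ext h')
      rcases (by omega : r.1 = p.1 ∨ r.1 = q.1) with h5 | h5
      · exact Or.inl (Fin.ext h5)
      · exact Or.inr (Fin.ext h5)
    refine Or.inr ⟨z p, z q, fun r => decide (r = q), hpq, ⟨⟨q, by simp⟩, ⟨p, by simp [hne]⟩⟩, ?_⟩
    funext r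
    rcases hall r with h5 | h5
    · subst h5
      simp [hne]
    · subst h5
      simp

/-- the structure given by the colours -/
def SX {n : ℕ} (d : Fin n → Fin n → PT 𝔹) : Str τ (Fin n) := fun l z =>
  (∃ i, z = (fun _ => i) ∧ (d i i).1 l (fun _ => false)) ∨
    ∃ (i j : Fin n) (f : Fin (τ.ar l) → Bool), i < j ∧ NC f ∧
      z = (fun p => if f p then j else i) ∧ (d i j).1 l f

theorem SX_const {n : ℕ} (d : Fin n → Fin n → PT 𝔹) {l : Fin τ.m} (hl : 1 ≤ τ.ar l)
    (i : Fin n) : SX d l (fun _ => i) ↔ (d i i).1 l (fun _ => false) := by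
  constructor
  · rintro (⟨j, h1, h2⟩ | ⟨j, j', f, h1, h2, h3, _⟩)
    · have h3 : i = j := congrFun h1 ⟨0, by omega⟩
      rw [h3]
      exact h2
    · exfalso
      obtain ⟨⟨p, hp⟩, ⟨q, hq⟩⟩ := h2
      have e1 := congrFun h3 p
      have e2 := congrFun h3 q
      simp only [hp, hq, if_true, Bool.false_eq_true, if_false] at e1 e2
      rw [← e1, ← e2] at h1
      exact lt_irrefl _ h1
  · intro h
    exact Or.inl ⟨i, rfl, h⟩

theorem SX_pair {n : ℕ} (d : Fin n → Fin n → PT 𝔹) {l : Fin τ.m} {i j : Fin n} (hij : i < j)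
    {f : Fin (τ.ar l) → Bool} (hf : NC f) :
    SX d l (fun p => if f p then j else i) ↔ (d i j).1 l f := by
  constructor
  · obtain ⟨⟨p, hp⟩, ⟨q, hq⟩⟩ := hf
    rintro (⟨i', h1, _⟩ | ⟨i', j', f', h1, h2, h3, h4⟩)
    · exfalso
      have e1 := congrFun h1 p
      have e2 := congrFun h1 q
      simp only [hp, hq, if_true, Bool.false_eq_true, if_false] at e1 e2
      rw [e1, e2] at hij
      exact lt_irrefl _ hij
    · obtain ⟨⟨p', hp'⟩, ⟨q', hq'⟩⟩ := h2
      have e1 := congrFun h3 p
      have e2 := congrFun h3 q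
      have e3 := congrFun h3 p'
      have e4 := congrFun h3 q'
      simp only [hp, hq, hp', hq', if_true, Bool.false_eq_true, if_false] at e1 e2 e3 e4
      have h5 : j = j' ∧ i = i' := by
        cases hx : f' p with
        | true =>
          rw [hx] at e1
          simp only [if_true] at e1
          refine ⟨e1, ?_⟩
          cases hy : f' q with
          | true =>
            rw [hy] at e2
            simp only [if_true] at e2
            rw [e2, ← e1] at hij
            exact absurd hij (lt_irrefl _)
          | false =>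
            rw [hy] at e2
            simpa using e2
        | false =>
          rw [hx] at e1
          simp only [Bool.false_eq_true, if_false] at e1
          exfalso
          cases hy : f' q with
          | true =>
            rw [hy] at e2
            simp only [if_true] at e2
            rw [e1, e2] at hij
            exact absurd hij (not_lt.2 h1.le)
          | false =>
            rw [hy] at e2
            simp only [Bool.false_eq_true, if_false] at e2
            rw [e1, e2] at hij
            exact lt_irrefl _ hij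
      obtain ⟨h5, h6⟩ := h5
      subst h5 h6
      have h7 : f = f' := by
        funext r
        have e5 := congrFun h3 r
        have hne : i ≠ j := hij.ne
        cases hx : f r <;> cases hy : f' r <;> simp [hx, hy] at e5 ⊢
        · exact hne e5
        · exact hne e5.symm
      rw [h7]
      exact h4
  · intro h
    exact Or.inr ⟨i, j, f, hij, hf, rfl, h⟩

/-- conditions for an embedding -/
structure Good {n m : ℕ} (d : Fin n → Fin n → PT 𝔹) (s : Fin m → Fin n) (v : Fin m → B) :
    Prop where
  inj : Function.Injective v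
  vert : ∀ i, pt 𝔹 (v i) (v i) = d (s i) (s i)
  pair : ∀ i j, s i < s j → ∀ l f, NC f →
    (𝔹 l (fun p => if f p then v j else v i) ↔ (d (s i) (s j)).1 l f)

theorem Good.isEmb (har : ∀ l, 1 ≤ τ.ar l ∧ τ.ar l ≤ 2) {n m : ℕ} {d : Fin n → Fin n → PT 𝔹}
    {s : Fin m → Fin n} (hs : Function.Injective s) {v : Fin m → B} (h : Good d s v) :
    IsEmb (pull (SX d) s) 𝔹 v := by
  refine ⟨h.inj, fun l z => ?_⟩
  unfold pull
  rcases two_cases (har l) z with ⟨a, rfl⟩ | ⟨a, b, f, hab, hf, rfl⟩
  · rw [SX_const d (har l).1, ← h.vert a]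
    exact ptype_false (v a) (v a) l
  · have hne : s a ≠ s b := fun h' => hab (hs h')
    rcases lt_or_gt_of_ne hne with hlt | hlt
    · have e1 : (fun p => s (if f p then b else a)) = fun p => if f p then s b else s a := by
        funext p
        split_ifs <;> rfl
      have e2 : (fun p => v (if f p then b else a)) = fun p => if f p then v b else v a := by
        funext p
        split_ifs <;> rfl
      rw [e1, e2, SX_pair d hlt hf, h.pair a b hlt l f hf]
    · have hf' : NC (fun p => !(f p)) := by
        obtain ⟨⟨p, hp⟩, ⟨q, hq⟩⟩ := hf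
        exact ⟨⟨q, by simp [hq]⟩, ⟨p, by simp [hp]⟩⟩
      have e1 : (fun p => s (if f p then b else a)) =
          fun p => if (!(f p)) then s a else s b := by
        funext p
        cases f p <;> simp
      have e2 : (fun p => v (if f p then b else a)) =
          fun p => if (!(f p)) then v a else v b := by
        funext p
        cases f p <;> simp
      rw [e1, e2, SX_pair d hlt hf', h.pair b a hlt l _ hf']

/-- a tuple with two different elements -/
theorem SX_both {n : ℕ} (d : Fin n → Fin n → PT 𝔹) {l : Fin τ.m} {z : Fin (τ.ar l) → Fin n}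
    (hz : SX d l z) {i j : Fin n} (hij : i < j) (hi : ∃ p, z p = i) (hj : ∃ p, z p = j) :
    ∃ f : Fin (τ.ar l) → Bool, NC f ∧ (d i j).1 l f := by
  obtain ⟨p, hp⟩ := hi
  obtain ⟨q, hq⟩ := hj
  rcases hz with ⟨i', h1, _⟩ | ⟨i', j', f', h1, h2, h3, h4⟩
  · rw [h1] at hp hq
    simp only at hp hq
    rw [← hp, ← hq] at hij
    exact absurd hij (lt_irrefl _)
  · rw [h3] at hp hq
    simp only at hp hq
    have h5 : i' = i ∧ j' = j := by
      cases hx : f' p <;> cases hy : f' q <;> simp [hx, hy] at hp hq
      · rw [← hp, ← hq] at hij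
        exact absurd hij (lt_irrefl _)
      · exact ⟨hp, hq⟩
      · rw [← hp, ← hq] at hij
        exact absurd hij (not_lt.2 h1.le)
      · rw [← hp, ← hq] at hij
        exact absurd hij (lt_irrefl _)
    obtain ⟨rfl, rfl⟩ := h5
    exact ⟨f', h2, h4⟩

theorem pf_FB3 (h : T_FB2) : T_FB3 := by
  intro τ B 𝔹 M en hen har hH hM hFB hB
  refine ⟨fro 𝔹, Lf 𝔹, Rf 𝔹, ⟨?_, ?_, ?_⟩, ?_⟩
  · intro x y
    apply Subtype.ext
    funext l f
    exact propext ((ptype_self x l f).trans (and_congr_right fun _ => (ptype_false x y l).symm))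
  · intro x y
    apply Subtype.ext
    funext l f
    exact propext ((ptype_self y l f).trans (and_congr_right fun _ => (ptype_true x y l).symm))
  · intro t
    obtain ⟨x, y, hxy⟩ := t.2
    exact ⟨x, y, Subtype.ext hxy⟩
  · let _ : LinearOrder B := LinearOrder.lift' en hen
    intro n d hd
    have hv : ∀ i, ∃ v : B, pt 𝔹 v v = d i i := by
      intro i
      obtain ⟨v, hv⟩ := hd 1 (fun _ => i) (by omega) (by
        intro a b hab
        exact absurd hab (by omega)) (by
        intro a b hab
        exact absurd hab (by omega))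
      exact ⟨v 0, hv 0 0 le_rfl⟩
    have hE : Embeds (SX d) 𝔹 := by
      refine hFB n (SX d) fun m s hm hs hirr => ?_
      have hmono : StrictMono (s ∘ Tuple.sort s) :=
        (Tuple.monotone_sort s).strictMono_of_injective
          (hs.comp (Tuple.sort s).injective)
      have hstar : ∀ i j, i < j → ∃ l, ∃ f : Fin (τ.ar l) → Bool, NC f ∧
          (d ((s ∘ Tuple.sort s) i) ((s ∘ Tuple.sort s) j)).1 l f := by
        intro i j hij
        have hne : Tuple.sort s i ≠ Tuple.sort s j := fun h' =>
          hij.ne ((Tuple.sort s).injective h')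
        obtain ⟨l, z, hz, ⟨p, hp⟩, ⟨q, hq⟩⟩ := hirr _ _ hne
        exact ⟨l, SX_both d hz (hmono hij) ⟨p, by simp [hp]⟩ ⟨q, by simp [hq]⟩⟩
      obtain ⟨v, hv'⟩ := hd m (s ∘ Tuple.sort s) hm hmono (by
        intro i j hij heq
        obtain ⟨l, f, hf, hdf⟩ := hstar i j hij
        obtain ⟨w, hw⟩ := hv ((s ∘ Tuple.sort s) i)
        rw [heq] at hdf
        exact fro_nc hw hf hdf)
      have hinj : Function.Injective v := by
        have key : ∀ i j, i < j → v i ≠ v j := by
          intro i j hij heq
          obtain ⟨l, f, hf, hdf⟩ := hstar i j hij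
          rw [← hv' i j hij.le, ← heq] at hdf
          exact hf.not_const ((ptype_self (v i) l f).1 hdf).1
        intro i j hij
        by_contra hne
        rcases lt_or_gt_of_ne hne with hlt | hlt
        · exact key i j hlt hij
        · exact key j i hlt hij.symm
      have hgood : Good d (s ∘ Tuple.sort s) v := by
        refine ⟨hinj, fun i => hv' i i le_rfl, fun i j hij l f _ => ?_⟩
        have hlt : i < j := hmono.lt_iff_lt.1 hij
        rw [← hv' i j hlt.le]
        exact (ptype_ne (hinj.ne hlt.ne) l f).symm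
      have hemb := hgood.isEmb har hmono.injective
      refine ⟨fun i => v ((Tuple.sort s).symm i), hinj.comp (Tuple.sort s).symm.injective,
        fun l z => ?_⟩
      have h1 := hemb.2 l (fun p => (Tuple.sort s).symm (z p))
      unfold pull at h1 ⊢
      simpa using h1
    obtain ⟨g, hg, hgm⟩ := h τ B 𝔹 M en hen hH hFB n (SX d) hE
    refine ⟨g, fun i j hij => hgm hij, ?_⟩
    have hvert : ∀ i, pt 𝔹 (g i) (g i) = d i i := by
      intro i
      obtain ⟨v, hv'⟩ := hv i
      apply Subtype.ext
      funext l f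
      apply propext
      rw [← hv']
      have h1 : 𝔹 l (fun _ => g i) ↔ 𝔹 l (fun _ => v) := by
        rw [← hg.2 l (fun _ => i), SX_const d (har l).1, ← hv']
        exact ptype_false v v l
      exact (ptype_self (g i) l f).trans ((and_congr_right fun _ => h1).trans
        (ptype_self v l f).symm)
    intro i j hij
    rcases hij.eq_or_lt with rfl | hlt
    · exact hvert i
    have hne : g i ≠ g j := hg.1.ne hlt.ne
    have hnc : ∀ l f, NC f → (ptype 𝔹 (g i) (g j) l f ↔ (d i j).1 l f) := by
      intro l f hf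
      rw [ptype_ne hne, ← SX_pair d hlt hf, hg.2 l]
      have e2 : (fun p => g (if f p then j else i)) = fun p => if f p then g j else g i := by
        funext p
        split_ifs <;> rfl
      rw [e2]
    have hfalse : ∀ l, (ptype 𝔹 (g i) (g j) l (fun _ => false) ↔
        (d i i).1 l (fun _ => false)) := by
      intro l
      rw [ptype_false, ← hvert i]
      exact (ptype_false (g i) (g i) l).symm
    have htrue : ∀ l, (ptype 𝔹 (g i) (g j) l (fun _ => true) ↔
        (d j j).1 l (fun _ => true)) := by
      intro l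
      rw [ptype_true, ← hvert j]
      exact (ptype_true (g j) (g j) l).symm
    by_cases hfree : d i j = fro 𝔹 (d i i) (d j j)
    · have hF : ptype 𝔹 (g i) (g j) = Ff (d i i).1 (d j j).1 := by
        funext l f
        apply propext
        rcases nc_or f with rfl | rfl | hf
        · rw [hfalse]
          constructor
          · intro h1
            exact Or.inl ⟨rfl, h1⟩
          · rintro (h1 | h1)
            · exact h1.2
            · exact absurd (congrFun h1.1 ⟨0, (har l).1⟩) (by simp)
        · rw [htrue]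
          constructor
          · intro h1
            exact Or.inr ⟨rfl, h1⟩
          · rintro (h1 | h1)
            · exact absurd (congrFun h1.1 ⟨0, (har l).1⟩) (by simp)
            · exact h1.2
        · rw [hnc l f hf, hfree]
          exact iff_of_false (fro_nc (hvert i) hf) (Ff_nc _ _ hf)
      rw [hfree]
      unfold fro
      rw [dif_pos ⟨g i, g j, hF⟩]
      exact Subtype.ext hF
    · obtain ⟨v, hv'⟩ := hd 2 ![i, j] hM (by
        intro a b hab
        fin_cases a <;> fin_cases b <;> simp at hab ⊢
        exact hlt) (by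
        intro a b hab
        fin_cases a <;> fin_cases b <;> simp at hab ⊢
        exact hfree)
      have e00 : pt 𝔹 (v 0) (v 0) = d i i := hv' 0 0 le_rfl
      have e11 : pt 𝔹 (v 1) (v 1) = d j j := hv' 1 1 le_rfl
      have e01 : pt 𝔹 (v 0) (v 1) = d i j := hv' 0 1 (by simp)
      apply Subtype.ext
      funext l f
      apply propext
      rcases nc_or f with rfl | rfl | hf
      · refine (hfalse l).trans ?_
        rw [← e00, ← e01]
        exact (ptype_false (v 0) (v 0) l).trans (ptype_false (v 0) (v 1) l).symm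
      · refine (htrue l).trans ?_
        rw [← e11, ← e01]
        exact (ptype_true (v 1) (v 1) l).trans (ptype_true (v 0) (v 1) l).symm
      · exact hnc l f hf

end Pool.Agent.H49.NR
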